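import Pool.Agent.EDL10.Pts

set_option autoImplicit false

namespace Pool.Agent.EDL10

open MvPolynomial WeierstrassCurve.Affine

variable (W : WeierstrassCurve ℚ)

/-- The addition law on codes as a polynomial condition. -/
def AddC (p q r : Fin 3 → ℚ) : Prop :=
  (p 2 = 1 ∧ (r 0 = q 0 ∧ (r 1 = q 1 ∧ r 2 = q 2))) ∨
  ((q 2 = 1 ∧ (r 0 = p 0 ∧ (r 1 = p 1 ∧ r 2 = p 2))) ∨
  ((p 2 = 0 ∧ (q 2 = 0 ∧ (p 0 = q 0 ∧ (p 1 = - q 1 - W.a₁ * q 0 - W.a₃ ∧
    (r 0 = 0 ∧ (r 1 = 0 ∧ r 2 = 1)))))) ∨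
  (p 2 = 0 ∧ (q 2 = 0 ∧ (r 2 = 0 ∧ ∃ l : ℚ, ∃ t : ℚ,
    ((((p 0 - q 0) * t = 1 ∧ l * (p 0 - q 0) = p 1 - q 1) ∨
      (p 0 = q 0 ∧ ((p 1 - (- q 1 - W.a₁ * q 0 - W.a₃)) * t = 1 ∧
        l * (p 1 - (- p 1 - W.a₁ * p 0 - W.a₃)) =
          3 * p 0 ^ 2 + 2 * W.a₂ * p 0 + W.a₄ - W.a₁ * p 1))) ∧
      (r 0 = l ^ 2 + W.a₁ * l - W.a₂ - p 0 - q 0 ∧
        r 1 = - (l * (r 0 - p 0) + p 1) - W.a₁ * r 0 - W.a₃)))))))

theorem addC_iff (P Q : W.toAffine.Point) (r : Fin 3 → ℚ) :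
    code W (P + Q) = r ↔ AddC W (code W P) (code W Q) r := by
  rcases P with _ | ⟨x₁, y₁, h₁⟩
  · change code W (0 + Q) = r ↔ _
    rw [zero_add]
    unfold AddC
    simp only [code]
    constructor
    · rintro rfl
      exact Or.inl ⟨by simp, rfl, rfl, rfl⟩
    · rintro (⟨-, h0, h1, h2⟩ | ⟨hq, h0, h1, h2⟩ | ⟨h, -⟩ | ⟨h, -⟩)
      · ext i; fin_cases i
        · exact h0.symm
        · exact h1.symm
        · exact h2.symm
      · rcases Q with _ | ⟨x₂, y₂, h₂⟩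
        · simp [code] at h0 h1 h2
          ext i; fin_cases i <;> simp [code, h0, h1, h2]
        · simp [code] at hq
      · simp at h
      · simp at h
  rcases Q with _ | ⟨x₂, y₂, h₂⟩
  · change code W (_ + 0) = r ↔ _
    rw [add_zero]
    unfold AddC
    simp only [code]
    constructor
    · rintro rfl
      exact Or.inr (Or.inl ⟨by simp, rfl, rfl, rfl⟩)
    · rintro (⟨h, -⟩ | ⟨-, h0, h1, h2⟩ | ⟨-, h, -⟩ | ⟨-, h, -⟩)
      · simp at h
      · ext i; fin_cases i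
        · exact h0.symm
        · exact h1.symm
        · exact h2.symm
      · simp at h
      · simp at h
  by_cases hxy : x₁ = x₂ ∧ y₁ = W.toAffine.negY x₂ y₂
  · rw [Point.add_of_Y_eq hxy.1 hxy.2]
    obtain ⟨hx, hy⟩ := hxy
    have hy' : y₁ = - y₂ - W.a₁ * x₂ - W.a₃ := hy
    unfold AddC
    change ![0, 0, 1] = r ↔ _
    simp only [code, Matrix.cons_val_zero, Matrix.cons_val_one, Matrix.cons_val]
    constructor
    · rintro rfl
      exact Or.inr (Or.inr (Or.inl ⟨trivial, trivial, hx, hy', by simp, by simp, by simp⟩))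
    · rintro (⟨h, -⟩ | ⟨h, -⟩ | ⟨-, -, -, -, h0, h1, h2⟩ | ⟨-, -, -, l, t, h | h, -⟩)
      · norm_num at h
      · norm_num at h
      · ext i; fin_cases i <;> simp [h0, h1, h2]
      · rw [hx] at h; simp at h
      · rw [← hy'] at h; simp at h
  · rw [Point.add_some hxy]
    unfold AddC
    change ![W.toAffine.addX x₁ x₂ (W.toAffine.slope x₁ x₂ y₁ y₂),
      W.toAffine.addY x₁ x₂ y₁ (W.toAffine.slope x₁ x₂ y₁ y₂), 0] = r ↔ _
    simp only [code, Matrix.cons_val_zero, Matrix.cons_val_one, Matrix.cons_val]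
    constructor
    · rintro rfl
      refine Or.inr (Or.inr (Or.inr ⟨trivial, trivial, by simp, ?_⟩))
      by_cases hx : x₁ = x₂
      · have hy : y₁ ≠ W.toAffine.negY x₂ y₂ := fun h => hxy ⟨hx, h⟩
        have hyy : y₁ = y₂ := by
          have := WeierstrassCurve.Affine.Y_eq_of_Y_ne h₁.1 h₂.1 hx hy
          exact this
        have hd : y₁ - (- y₂ - W.a₁ * x₂ - W.a₃) ≠ 0 := fun h => hy (by
          unfold WeierstrassCurve.Affine.negY; linarith)
        refine ⟨W.toAffine.slope x₁ x₂ y₁ y₂, (y₁ - (- y₂ - W.a₁ * x₂ - W.a₃))⁻¹,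
          Or.inr ⟨hx, mul_inv_cancel₀ hd, ?_⟩, ?_, ?_⟩
        · rw [slope_of_Y_ne hx hy]
          have hd' : y₁ - W.toAffine.negY x₁ y₁ ≠ 0 := by
            have : W.toAffine.negY x₁ y₁ = W.toAffine.negY x₂ y₂ := by rw [hx, hyy]
            rw [this]; exact sub_ne_zero.2 hy
          change _ * (y₁ - W.toAffine.negY x₁ y₁) = _
          field_simp
        · simp [WeierstrassCurve.Affine.addX]
        · simp [WeierstrassCurve.Affine.addY, WeierstrassCurve.Affine.negY,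
            WeierstrassCurve.Affine.negAddY]
      · have hd : x₁ - x₂ ≠ 0 := sub_ne_zero.2 hx
        refine ⟨W.toAffine.slope x₁ x₂ y₁ y₂, (x₁ - x₂)⁻¹, Or.inl ⟨mul_inv_cancel₀ hd, ?_⟩, ?_, ?_⟩
        · rw [slope_of_X_ne hx]
          field_simp
        · simp [WeierstrassCurve.Affine.addX]
        · simp [WeierstrassCurve.Affine.addY, WeierstrassCurve.Affine.negY,
            WeierstrassCurve.Affine.negAddY]
    · rintro (⟨h, -⟩ | ⟨h, -⟩ | ⟨-, -, hx, hy, -⟩ | ⟨-, -, h2, l, t, hl, h0, h1⟩)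
      · norm_num at h
      · norm_num at h
      · exact absurd ⟨hx, hy⟩ hxy
      · have hls : l = W.toAffine.slope x₁ x₂ y₁ y₂ := by
          rcases hl with ⟨ht, hl⟩ | ⟨hx, ht, hl⟩
          · have hx : x₁ - x₂ ≠ 0 := by
              intro h; rw [h] at ht; norm_num at ht
            rw [slope_of_X_ne (sub_ne_zero.1 hx), eq_div_iff hx]
            exact hl
          · have hy : y₁ ≠ W.toAffine.negY x₂ y₂ := by
              intro h
              have : y₁ - (- y₂ - W.a₁ * x₂ - W.a₃) = 0 := by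
                rw [h]; unfold WeierstrassCurve.Affine.negY; ring
              rw [this] at ht; norm_num at ht
            have hyy : y₁ = y₂ := WeierstrassCurve.Affine.Y_eq_of_Y_ne h₁.1 h₂.1 hx hy
            have hd' : y₁ - W.toAffine.negY x₁ y₁ ≠ 0 := by
              have : W.toAffine.negY x₁ y₁ = W.toAffine.negY x₂ y₂ := by rw [hx, hyy]
              rw [this]; exact sub_ne_zero.2 hy
            rw [slope_of_Y_ne hx hy, eq_div_iff hd']
            exact hl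
        subst hls
        ext i; fin_cases i
        · simp [WeierstrassCurve.Affine.addX, h0]
        · simp [WeierstrassCurve.Affine.addY, WeierstrassCurve.Affine.negY,
            WeierstrassCurve.Affine.negAddY, WeierstrassCurve.Affine.addX, h1, h0]
        · simp [h2]

variable {W}

theorem dq_addC : DQ {v : Fin 3 × Fin 3 → ℚ |
    AddC W (fun i => v (0, i)) (fun i => v (1, i)) (fun i => v (2, i))} := by
  unfold AddC
  refine DQ.or (DQ.and (DQ.eq ?_ ?_) (DQ.and (DQ.eq ?_ ?_) (DQ.and (DQ.eq ?_ ?_) (DQ.eq ?_ ?_))))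
    (DQ.or (DQ.and (DQ.eq ?_ ?_) (DQ.and (DQ.eq ?_ ?_) (DQ.and (DQ.eq ?_ ?_) (DQ.eq ?_ ?_))))
    (DQ.or (DQ.and (DQ.eq ?_ ?_) (DQ.and (DQ.eq ?_ ?_) (DQ.and (DQ.eq ?_ ?_)
      (DQ.and (DQ.eq ?_ ?_) (DQ.and (DQ.eq ?_ ?_) (DQ.and (DQ.eq ?_ ?_) (DQ.eq ?_ ?_)))))))
    (DQ.and (DQ.eq ?_ ?_) (DQ.and (DQ.eq ?_ ?_) (DQ.and (DQ.eq ?_ ?_) (DQ.exq (DQ.exq
      (DQ.and (DQ.or (DQ.and (DQ.eq ?_ ?_) (DQ.eq ?_ ?_)) (DQ.and (DQ.eq ?_ ?_)
        (DQ.and (DQ.eq ?_ ?_) (DQ.eq ?_ ?_)))) (DQ.and (DQ.eq ?_ ?_) (DQ.eq ?_ ?_))))))))))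
  all_goals
    repeat' first
    | exact IsP.const _
    | exact IsP.var _
    | apply IsP.add
    | apply IsP.sub
    | apply IsP.mul
    | apply IsP.neg
    | apply IsP.pow

theorem DE.addG (hW : W.Δ ≠ 0) : DE W {s : Fin 3 → W.toAffine.Point | s 0 + s 1 = s 2} := by
  have h1 := DE.univ (α := Fin 3) hW
  have h2 := DQ.inter h1 (dq_addC (W := W))
  unfold DE
  convert h2 using 1
  ext v
  constructor
  · rintro ⟨s, hs, rfl⟩
    refine ⟨⟨s, trivial, rfl⟩, ?_⟩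
    have hs' : s 0 + s 1 = s 2 := hs
    exact (addC_iff W (s 0) (s 1) (code W (s 2))).1 (by rw [hs'])
  · rintro ⟨⟨s, -, rfl⟩, h⟩
    refine ⟨s, ?_, rfl⟩
    have := (addC_iff W (s 0) (s 1) (code W (s 2))).2 h
    exact code_inj W this

theorem DE.addv {α : Type} [Finite α] (hW : W.Δ ≠ 0) (i j k : α) :
    DE W {s : α → W.toAffine.Point | s i + s j = s k} :=
  DE.comap hW ![i, j, k] (DE.addG hW)

end Pool.Agent.EDL10
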