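import Pool.Agent.EDL10.Sub

set_option autoImplicit false

namespace Pool.Agent.EDL10

open MvPolynomial WeierstrassCurve.Affine

/-- Two elements of a subgroup of rank one are dependent. -/
theorem dep_of_rank_one {G : Type} [AddCommGroup G] {H : AddSubgroup G}
    (hH : Module.rank ℤ H = 1) {x y : G} (hx : x ∈ H) (hy : y ∈ H) :
    ∃ m n : ℤ, (m ≠ 0 ∨ n ≠ 0) ∧ m • x + n • y = 0 := by
  by_contra hcon
  push_neg at hcon
  have hli : LinearIndependent ℤ ![(⟨x, hx⟩ : H), ⟨y, hy⟩] := by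
    rw [LinearIndependent.pair_iff]
    intro s t hst
    have h1 := congrArg (Subtype.val) hst
    have h2 : s • x + t • y = 0 := by simpa using h1
    by_contra hne
    rw [not_and_or] at hne
    exact hcon s t hne h2
  have := hli.cardinal_le_rank
  rw [hH] at this
  simp at this

/-- A subgroup of rank one contains an element of infinite order. -/
theorem exists_inf_of_rank_one {G : Type} [AddCommGroup G] {H : AddSubgroup G}
    (hH : Module.rank ℤ H = 1) : ∃ x ∈ H, ∀ n : ℤ, n ≠ 0 → n • x ≠ 0 := by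
  by_contra hcon
  push_neg at hcon
  have : Module.rank ℤ H = 0 := by
    rw [rank_eq_zero_iff]
    intro x
    obtain ⟨n, hn, h⟩ := hcon x.1 x.2
    exact ⟨n, hn, Subtype.ext (by simpa using h)⟩
  rw [hH] at this
  exact one_ne_zero this

/-- A subgroup with an element of infinite order in which any two elements are dependent has
rank one. -/
theorem rank_eq_one {G : Type} [AddCommGroup G] {H : AddSubgroup G} {x : G} (hx : x ∈ H)
    (hx0 : ∀ n : ℤ, n ≠ 0 → n • x ≠ 0)
    (hdep : ∀ a ∈ H, ∀ b ∈ H, ∃ m n : ℤ, (m ≠ 0 ∨ n ≠ 0) ∧ m • a + n • b = 0) :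
    Module.rank ℤ H = 1 := by
  apply le_antisymm
  · have := rank_le (R := ℤ) (M := H) (n := 1) (fun s hs => by
      by_contra hlt
      push_neg at hlt
      obtain ⟨a, ha, b, hb, hab⟩ := Finset.one_lt_card.1 hlt
      obtain ⟨m, n, hmn, h⟩ := hdep a.1 a.2 b.1 b.2
      have hp : LinearIndependent ℤ ![a, b] := by
        have := hs.comp ![(⟨a, ha⟩ : s), ⟨b, hb⟩] (by
          intro i j hij
          fin_cases i <;> fin_cases j <;> simp_all)
        convert this using 1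
        ext i
        fin_cases i <;> rfl
      rw [LinearIndependent.pair_iff] at hp
      have h2 : m • a + n • b = 0 := Subtype.ext (by simpa using h)
      have := hp m n h2
      rcases hmn with h | h
      · exact h this.1
      · exact h this.2)
    simpa using this
  · rw [Cardinal.one_le_iff_ne_zero]
    intro h0
    rw [rank_eq_zero_iff] at h0
    obtain ⟨n, hn, h⟩ := h0 ⟨x, hx⟩
    exact hx0 n hn (by simpa using congrArg Subtype.val h)

variable {W : WeierstrassCurve ℚ}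

/-- The subgroup of all `A + B` with `A ∈ H₁`, `B ∈ H₂` and `a B = b D` for some `D ∈ H₂` with
`A + D ∈ H₃`. -/
def KK {G : Type} [AddCommGroup G] (H₁ H₂ H₃ : AddSubgroup G) (a b : ℤ) : AddSubgroup G where
  carrier := {P | ∃ A, A ∈ H₁ ∧ ∃ B, B ∈ H₂ ∧ (A + B = P ∧ ∃ D, D ∈ H₂ ∧ ∃ E, E ∈ H₃ ∧
    (A + D = E ∧ ∃ F, a • B = F ∧ b • D = F))}
  zero_mem' := ⟨0, H₁.zero_mem, 0, H₂.zero_mem, by simp, 0, H₂.zero_mem, 0, H₃.zero_mem,
    by simp, 0, by simp, by simp⟩
  add_mem' := by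
    rintro P Q ⟨A, hA, B, hB, rfl, D, hD, E, hE, rfl, F, hF, hF'⟩
      ⟨A', hA', B', hB', rfl, D', hD', E', hE', rfl, F', hG, hG'⟩
    refine ⟨A + A', H₁.add_mem hA hA', B + B', H₂.add_mem hB hB', by abel, D + D',
      H₂.add_mem hD hD', (A + D) + (A' + D'), H₃.add_mem hE hE', by abel, F + F', ?_, ?_⟩
    · rw [smul_add, hF, hG]
    · rw [smul_add, hF', hG']
  neg_mem' := by
    rintro P ⟨A, hA, B, hB, rfl, D, hD, E, hE, rfl, F, hF, hF'⟩
    refine ⟨-A, H₁.neg_mem hA, -B, H₂.neg_mem hB, by abel, -D, H₂.neg_mem hD, -(A + D),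
      H₃.neg_mem hE, by abel, -F, ?_, ?_⟩
    · rw [smul_neg, hF]
    · rw [smul_neg, hF']

theorem KK_ED (hW : W.Δ ≠ 0) {H₁ H₂ H₃ : AddSubgroup W.toAffine.Point}
    (h₁ : ED W H₁) (h₂ : ED W H₂) (h₃ : ED W H₃) (a b : ℤ) :
    ED W (KK H₁ H₂ H₃ a b : Set W.toAffine.Point) := by
  refine ED.ofp (fun P => ∃ A, A ∈ H₁ ∧ ∃ B, B ∈ H₂ ∧ (A + B = P ∧ ∃ D, D ∈ H₂ ∧ ∃ E, E ∈ H₃ ∧
    (A + D = E ∧ ∃ F, a • B = F ∧ b • D = F))) ?_
  refine DE.ex1 hW (DE.and (DE.memv hW h₁ none) ?_)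
  refine DE.ex1 hW (DE.and (DE.memv hW h₂ none) ?_)
  refine DE.and (DE.addv hW (some none) none (some (some ()))) ?_
  refine DE.ex1 hW (DE.and (DE.memv hW h₂ none) ?_)
  refine DE.ex1 hW (DE.and (DE.memv hW h₃ none) ?_)
  refine DE.and (DE.addv hW (some (some (some none))) (some none) none) ?_
  refine DE.ex1 hW (DE.and (DE.zsmulv hW a (some (some (some none))) none)
    (DE.zsmulv hW b (some (some none)) none))

end Pool.Agent.EDL10
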