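import Mathlib

/-! Existentially definable (Diophantine) sets of tuples of rational numbers, and the same for
tuples of rational points of a Weierstrass curve. -/

set_option autoImplicit false

namespace Pool.Agent.EDL10

open MvPolynomial

/-- A set of rational tuples indexed by `α` is Diophantine. -/
def DQ {α : Type} (S : Set (α → ℚ)) : Prop :=
  ∃ (m : ℕ) (P : MvPolynomial (α ⊕ Fin m) ℚ), ∀ v, v ∈ S ↔
    ∃ z : Fin m → ℚ, eval (Sum.elim v z) P = 0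

theorem DQ.mk' {α β : Type} [Finite β] {S : Set (α → ℚ)} (P : MvPolynomial (α ⊕ β) ℚ)
    (h : ∀ v, v ∈ S ↔ ∃ z : β → ℚ, eval (Sum.elim v z) P = 0) : DQ S := by
  obtain ⟨m, ⟨e⟩⟩ := Finite.exists_equiv_fin β
  refine ⟨m, rename (Sum.map id e) P, fun v => ?_⟩
  rw [h v]
  constructor
  · rintro ⟨z, hz⟩
    refine ⟨z ∘ e.symm, ?_⟩
    rw [eval_rename]
    rw [← hz]
    congr 2
    ext i
    cases i <;> simp
  · rintro ⟨z, hz⟩
    refine ⟨z ∘ e, ?_⟩
    rw [eval_rename] at hz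
    rw [← hz]
    congr 2
    ext i
    cases i <;> simp

theorem DQ.zero {α : Type} (p : MvPolynomial α ℚ) : DQ {v : α → ℚ | eval v p = 0} := by
  refine DQ.mk' (β := Empty) (rename Sum.inl p) fun v => ?_
  have : ∀ z : Empty → ℚ, eval (Sum.elim v z) (rename Sum.inl p) = eval v p := by
    intro z
    rw [eval_rename]
    congr 1
  simp [this]

theorem DQ.inter {α : Type} {S T : Set (α → ℚ)} (hS : DQ S) (hT : DQ T) : DQ (S ∩ T) := by
  obtain ⟨m, P, hP⟩ := hS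
  obtain ⟨n, Q, hQ⟩ := hT
  refine DQ.mk' (β := Fin m ⊕ Fin n) ((rename (Sum.map id Sum.inl) P) ^ 2 +
    (rename (Sum.map id Sum.inr) Q) ^ 2) fun v => ?_
  have h1 : ∀ z : Fin m ⊕ Fin n → ℚ, (Sum.elim v z) ∘ (Sum.map id Sum.inl) =
      Sum.elim v (z ∘ Sum.inl) := by
    intro z; ext i; cases i <;> simp
  have h2 : ∀ z : Fin m ⊕ Fin n → ℚ, (Sum.elim v z) ∘ (Sum.map id Sum.inr) =
      Sum.elim v (z ∘ Sum.inr) := by
    intro z; ext i; cases i <;> simp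
  rw [Set.mem_inter_iff, hP v, hQ v]
  constructor
  · rintro ⟨⟨z, hz⟩, ⟨w, hw⟩⟩
    refine ⟨Sum.elim z w, ?_⟩
    simp only [map_add, map_pow, eval_rename, h1, h2, Sum.elim_comp_inl, Sum.elim_comp_inr, hz, hw]
    norm_num
  · rintro ⟨z, hz⟩
    simp only [map_add, map_pow, eval_rename, h1, h2] at hz
    have a := sq_nonneg (eval (Sum.elim v (z ∘ Sum.inl)) P)
    have b := sq_nonneg (eval (Sum.elim v (z ∘ Sum.inr)) Q)
    exact ⟨⟨z ∘ Sum.inl, pow_eq_zero_iff (two_ne_zero) |>.1 (by linarith)⟩,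
      ⟨z ∘ Sum.inr, pow_eq_zero_iff (two_ne_zero) |>.1 (by linarith)⟩⟩

theorem DQ.union {α : Type} {S T : Set (α → ℚ)} (hS : DQ S) (hT : DQ T) : DQ (S ∪ T) := by
  obtain ⟨m, P, hP⟩ := hS
  obtain ⟨n, Q, hQ⟩ := hT
  refine DQ.mk' (β := Fin m ⊕ Fin n) ((rename (Sum.map id Sum.inl) P) *
    (rename (Sum.map id Sum.inr) Q)) fun v => ?_
  have h1 : ∀ z : Fin m ⊕ Fin n → ℚ, (Sum.elim v z) ∘ (Sum.map id Sum.inl) =
      Sum.elim v (z ∘ Sum.inl) := by
    intro z; ext i; cases i <;> simp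
  have h2 : ∀ z : Fin m ⊕ Fin n → ℚ, (Sum.elim v z) ∘ (Sum.map id Sum.inr) =
      Sum.elim v (z ∘ Sum.inr) := by
    intro z; ext i; cases i <;> simp
  rw [Set.mem_union, hP v, hQ v]
  constructor
  · rintro (⟨z, hz⟩ | ⟨w, hw⟩)
    · refine ⟨Sum.elim z 0, ?_⟩
      simp only [map_mul, eval_rename, h1, h2, Sum.elim_comp_inl, hz, zero_mul]
    · refine ⟨Sum.elim 0 w, ?_⟩
      simp only [map_mul, eval_rename, h1, h2, Sum.elim_comp_inr, hw, mul_zero]
  · rintro ⟨z, hz⟩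
    simp only [map_mul, eval_rename, h1, h2] at hz
    rcases mul_eq_zero.1 hz with h | h
    · exact Or.inl ⟨_, h⟩
    · exact Or.inr ⟨_, h⟩

theorem DQ.ex {α γ : Type} [Finite γ] {S : Set (α ⊕ γ → ℚ)} (hS : DQ S) :
    DQ {v : α → ℚ | ∃ w : γ → ℚ, Sum.elim v w ∈ S} := by
  obtain ⟨m, P, hP⟩ := hS
  refine DQ.mk' (β := γ ⊕ Fin m) (rename (Equiv.sumAssoc α γ (Fin m)) P) fun v => ?_
  rw [Set.mem_setOf_eq]
  constructor
  · rintro ⟨w, hw⟩
    obtain ⟨z, hz⟩ := (hP _).1 hw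
    refine ⟨Sum.elim w z, ?_⟩
    rw [eval_rename, ← hz]
    congr 2
    ext i
    rcases i with (i | i) | i <;> simp
  · rintro ⟨z, hz⟩
    refine ⟨z ∘ Sum.inl, (hP _).2 ⟨z ∘ Sum.inr, ?_⟩⟩
    rw [eval_rename] at hz
    rw [← hz]
    congr 2
    ext i
    rcases i with (i | i) | i <;> simp

theorem DQ.comap {α β : Type} (f : α → β) {S : Set (α → ℚ)} (hS : DQ S) :
    DQ {v : β → ℚ | v ∘ f ∈ S} := by
  obtain ⟨m, P, hP⟩ := hS
  refine ⟨m, rename (Sum.map f id) P, fun v => ?_⟩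
  rw [Set.mem_setOf_eq, hP]
  have : ∀ z : Fin m → ℚ, Sum.elim v z ∘ Sum.map f id = Sum.elim (v ∘ f) z := by
    intro z; ext i; cases i <;> simp
  simp only [eval_rename, this]

/-- `∃ w, Q v w` where `Q` is Diophantine in both (one more variable). -/
theorem DQ.ex1 {α : Type} {S : Set (Option α → ℚ)} (hS : DQ S) :
    DQ {v : α → ℚ | ∃ t : ℚ, (fun o : Option α => o.elim t v) ∈ S} := by
  have h := DQ.comap (β := α ⊕ Unit) (fun o : Option α => o.elim (Sum.inr ()) Sum.inl) hS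
  have h2 := DQ.ex h
  convert h2 using 1
  ext v
  simp only [Set.mem_setOf_eq]
  constructor
  · rintro ⟨t, ht⟩
    refine ⟨fun _ => t, ?_⟩
    convert ht using 1
    ext o
    cases o <;> simp
  · rintro ⟨w, hw⟩
    refine ⟨w (), ?_⟩
    convert hw using 1
    ext o
    cases o <;> simp

end Pool.Agent.EDL10
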