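import Pool.Agent.EDL10.Main

set_option autoImplicit false

namespace Pool.Agent.EDL10

open MvPolynomial WeierstrassCurve.Affine

variable {W : WeierstrassCurve ℚ}

theorem ED.sup (hW : W.Δ ≠ 0) {A B : AddSubgroup W.toAffine.Point} (hA : ED W (A : Set _))
    (hB : ED W (B : Set _)) : ED W ((A ⊔ B : AddSubgroup W.toAffine.Point) : Set _) := by
  have := ED.add hW hA hB
  convert this using 1
  ext z
  rw [SetLike.mem_coe, AddSubgroup.mem_sup]
  constructor
  · rintro ⟨x, hx, y, hy, h⟩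
    exact ⟨x, hx, y, hy, h⟩
  · rintro ⟨x, hx, y, hy, h⟩
    exact ⟨x, hx, y, hy, h⟩

theorem exists_mul {G : Type} [AddCommGroup G] {K : AddSubgroup G} (hK : Module.rank ℤ K = 1)
    {Q : G} (hQ : Q ∈ K) (hQ0 : ¬ IsOfFinAddOrder Q) (S : Finset G) (hS : ∀ s ∈ S, s ∈ K) :
    ∃ m : ℤ, m ≠ 0 ∧ ∀ s ∈ S, m • s ∈ AddSubgroup.zmultiples Q := by
  classical
  induction S using Finset.induction_on with
  | empty => exact ⟨1, one_ne_zero, by simp⟩
  | insert a S ha ih =>
    obtain ⟨m, hm, h⟩ := ih (fun s hs => hS s (Finset.mem_insert_of_mem hs))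
    obtain ⟨u, v, huv, h0⟩ := dep_of_rank_one hK (hS a (Finset.mem_insert_self _ _)) hQ
    have hu : u ≠ 0 := by
      rintro rfl
      rw [zero_zsmul, zero_add] at h0
      rcases huv with h | h
      · exact h rfl
      · exact hQ0 (fin_iff.2 ⟨v, h, h0⟩)
    refine ⟨m * u, mul_ne_zero hm hu, ?_⟩
    intro s hs
    rcases Finset.mem_insert.1 hs with rfl | hs
    · rw [mul_smul, eq_neg_of_add_eq_zero_left h0]
      exact AddSubgroup.zsmul_mem _ (AddSubgroup.neg_mem _ (AddSubgroup.zsmul_mem _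
        (AddSubgroup.mem_zmultiples Q) v)) m
    · rw [mul_comm, mul_smul]
      exact AddSubgroup.zsmul_mem _ (h s hs) u

theorem fg_of_finite {G : Type} [AddCommGroup G] [Module.Finite ℤ G] (K : AddSubgroup G) :
    ∃ S : Finset G, AddSubgroup.closure (S : Set G) = K := by
  have h : (AddSubgroup.toIntSubmodule K).FG := IsNoetherian.noetherian _
  rw [Submodule.fg_iff_addSubgroup_fg] at h
  exact h

theorem gen1 {G : Type} [AddCommGroup G] {K : AddSubgroup G} {S : Finset G}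
    (hS : AddSubgroup.closure (S : Set G) = K) {m : ℤ} {Q : G}
    (hmS : ∀ s ∈ S, m • s ∈ AddSubgroup.zmultiples Q) :
    ∀ k ∈ K, m • k ∈ AddSubgroup.zmultiples Q := by
  intro k hk
  rw [← hS] at hk
  induction hk using AddSubgroup.closure_induction with
  | mem x hx => exact hmS x hx
  | zero => rw [smul_zero]; exact AddSubgroup.zero_mem _
  | add x y _ _ hx hy => rw [smul_add]; exact AddSubgroup.add_mem _ hx hy
  | neg x _ hx => rw [smul_neg]; exact AddSubgroup.neg_mem _ hx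

theorem gen2 {G : Type} [AddCommGroup G] {K : AddSubgroup G} {P : G} {m n : ℤ}
    (hmn : m * n ≠ 0) (hnP : n • P ∈ K)
    (hmK : ∀ k ∈ K, m • k ∈ AddSubgroup.zmultiples (n • P)) :
    {z | ∃ x, x ∈ (fun j : ℤ => j • P) '' (Set.Ico 0 |m * n|) ∧
      ∃ y, y ∈ {z | ∃ x, x ∈ (K : Set G) ∧ m • x = z} ∧ x + y = z} =
    (AddSubgroup.zmultiples P : Set G) := by
  ext z
  rw [SetLike.mem_coe, AddSubgroup.mem_zmultiples_iff]
  constructor
  · rintro ⟨x, ⟨j, -, rfl⟩, y, ⟨k, hk, rfl⟩, rfl⟩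
    obtain ⟨c, hc⟩ := AddSubgroup.mem_zmultiples_iff.1 (hmK k hk)
    refine ⟨j + c * n, ?_⟩
    rw [← hc, add_smul, mul_smul]
  · rintro ⟨t, rfl⟩
    refine ⟨(t % (m * n)) • P, ⟨t % (m * n), ⟨Int.emod_nonneg _ hmn, Int.emod_lt_abs _ hmn⟩, rfl⟩,
      m • ((t / (m * n)) • (n • P)), ⟨(t / (m * n)) • (n • P), K.zsmul_mem hnP _, rfl⟩, ?_⟩
    rw [smul_smul, smul_smul, ← add_smul]
    congr 1
    have e : t % (m * n) + m * n * (t / (m * n)) = t := Int.emod_add_mul_ediv t (m * n)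
    linear_combination e

theorem ED.zmult (hW : W.Δ ≠ 0) [Module.Finite ℤ W.toAffine.Point]
    (hl : ∀ P : W.toAffine.Point, ¬ IsOfFinAddOrder P →
      ∃ K : AddSubgroup W.toAffine.Point, ED W (K : Set W.toAffine.Point) ∧
      Module.rank ℤ K = 1 ∧ ∃ n : ℤ, n ≠ 0 ∧ n • P ∈ K) (P : W.toAffine.Point) :
    ED W (AddSubgroup.zmultiples P : Set W.toAffine.Point) := by
  by_cases hP : IsOfFinAddOrder P
  · exact ED.finite (finite_zmultiples.2 hP)
  obtain ⟨K, hKE, hK, n, hn, hnP⟩ := hl P hP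
  obtain ⟨S, hS⟩ := fg_of_finite K
  have hQ0 : ¬ IsOfFinAddOrder (n • P) := fun h => hP (smul_fin hn h)
  obtain ⟨m, hm, hmS⟩ := exists_mul hK hnP hQ0 S (fun s hs => by
    rw [← hS]; exact AddSubgroup.subset_closure hs)
  have h1 := ED.zsmul hW m hKE
  have h2 : ED W ((fun j : ℤ => j • P) '' (Set.Ico 0 |m * n|)) :=
    ED.finite (Set.Finite.image _ (Set.finite_Ico _ _))
  have h3 := ED.add hW h2 h1
  have e := gen2 (mul_ne_zero hm hn) hnP (gen1 hS hmS)
  rw [← e]
  exact h3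

theorem ED.all (hW : W.Δ ≠ 0) [Module.Finite ℤ W.toAffine.Point]
    (hl : ∀ P : W.toAffine.Point, ¬ IsOfFinAddOrder P →
      ∃ K : AddSubgroup W.toAffine.Point, ED W (K : Set W.toAffine.Point) ∧
      Module.rank ℤ K = 1 ∧ ∃ n : ℤ, n ≠ 0 ∧ n • P ∈ K) (K : AddSubgroup W.toAffine.Point) :
    ED W (K : Set W.toAffine.Point) := by
  classical
  obtain ⟨S, rfl⟩ := fg_of_finite K
  induction S using Finset.induction_on with
  | empty =>
    simp only [Finset.coe_empty, AddSubgroup.closure_empty, AddSubgroup.coe_bot]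
    exact ED.singleton _
  | insert a S ha ih =>
    rw [Finset.coe_insert, Set.insert_eq, AddSubgroup.closure_union,
      ← AddSubgroup.zmultiples_eq_closure]
    exact ED.sup hW (ED.zmult hW hl a) ih

end Pool.Agent.EDL10
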