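import Pool.Agent.EDL10.Core

set_option autoImplicit false

namespace Pool.Agent.EDL10

open MvPolynomial WeierstrassCurve.Affine

section group

variable {G : Type} [AddCommGroup G] {H₁ H₂ H₃ : AddSubgroup G}

theorem fin_iff {x : G} : IsOfFinAddOrder x ↔ ∃ n : ℤ, n ≠ 0 ∧ n • x = 0 :=
  isOfFinAddOrder_iff_zsmul_eq_zero

theorem inf_iff {x : G} : ¬ IsOfFinAddOrder x ↔ ∀ n : ℤ, n ≠ 0 → n • x ≠ 0 := by
  rw [fin_iff]; push_neg; rfl

theorem smul_fin {x : G} {n : ℤ} (hn : n ≠ 0) (h : IsOfFinAddOrder (n • x)) :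
    IsOfFinAddOrder x := by
  rw [fin_iff] at h ⊢
  obtain ⟨m, hm, h⟩ := h
  exact ⟨m * n, mul_ne_zero hm hn, by rw [mul_smul, h]⟩

theorem KK_mem {A D : G} (hA : A ∈ H₁) (hD : D ∈ H₂) (hE : A + D ∈ H₃) (a b : ℤ) :
    a • A + b • D ∈ KK H₁ H₂ H₃ a b :=
  ⟨a • A, H₁.zsmul_mem hA a, b • D, H₂.zsmul_mem hD b, rfl, a • D, H₂.zsmul_mem hD a,
    a • (A + D), H₃.zsmul_mem hE a, by rw [smul_add], a • b • D, rfl, by rw [smul_comm]⟩

theorem KK_rank {A D : G} (hA : A ∈ H₁) (hD : D ∈ H₂) (hE : A + D ∈ H₃) {a b : ℤ} (ha : a ≠ 0)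
    (hA0 : ¬ IsOfFinAddOrder A) (hr : Module.rank ℤ H₁ = 1)
    (h12 : ∀ x ∈ H₁, x ∈ H₂ → IsOfFinAddOrder x) (h23 : ∀ x ∈ H₂, x ∈ H₃ → IsOfFinAddOrder x) :
    Module.rank ℤ (KK H₁ H₂ H₃ a b) = 1 := by
  refine rank_eq_one (KK_mem hA hD hE a b) ?_ ?_
  · intro n hn h
    rw [smul_add, smul_smul, smul_smul] at h
    have h1 : (n * a) • A ∈ H₂ := by
      rw [eq_neg_of_add_eq_zero_left h]
      exact H₂.neg_mem (H₂.zsmul_mem hD _)
    exact hA0 (smul_fin (mul_ne_zero hn ha) (h12 _ (H₁.zsmul_mem hA _) h1))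
  · rintro P ⟨A, hA, B, hB, rfl, D, hD, E, hE, rfl, F, hF, hF'⟩
      Q ⟨A', hA', B', hB', rfl, D', hD', E', hE', rfl, F', hG, hG'⟩
    obtain ⟨m, n, hmn, h⟩ := dep_of_rank_one hr hA hA'
    have h1 : m • D + n • D' ∈ H₃ := by
      have : m • D + n • D' = m • (A + D) + n • (A' + D') := by
        rw [smul_add, smul_add]
        calc m • D + n • D' = (m • A + n • A') + (m • D + n • D') := by rw [h, zero_add]
          _ = _ := by abel
      rw [this]
      exact H₃.add_mem (H₃.zsmul_mem hE _) (H₃.zsmul_mem hE' _)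
    have h2 := h23 _ (H₂.add_mem (H₂.zsmul_mem hD m) (H₂.zsmul_mem hD' n)) h1
    rw [fin_iff] at h2
    obtain ⟨k, hk, h2⟩ := h2
    have h3 : a • (k • (m • B + n • B')) = 0 := by
      have e1 : a • B = b • D := by rw [hF, hF']
      have e2 : a • B' = b • D' := by rw [hG, hG']
      calc a • (k • (m • B + n • B')) = k • (m • (a • B) + n • (a • B')) := by
            simp only [smul_add, smul_smul]; ring_nf
        _ = b • (k • (m • D + n • D')) := by
            rw [e1, e2]; simp only [smul_add, smul_smul]; ring_nf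
        _ = 0 := by rw [h2, smul_zero]
    refine ⟨a * k * m, a * k * n, ?_, ?_⟩
    · rcases hmn with h | h
      · exact Or.inl (mul_ne_zero (mul_ne_zero ha hk) h)
      · exact Or.inr (mul_ne_zero (mul_ne_zero ha hk) h)
    · calc (a * k * m) • (A + B) + (a * k * n) • (A' + B')
          = (a * k) • (m • A + n • A') + a • (k • (m • B + n • B')) := by
            simp only [smul_add, smul_smul, mul_assoc]
            abel
        _ = 0 := by rw [h, h3, smul_zero, zero_add]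

/-- In a group of rank two, an element is, up to a multiple, a combination of two independent
ones. -/
theorem combo (hG : Module.rank ℤ G = 2) {x y : G} (hx : x ∈ H₁) (hy : y ∈ H₂)
    (hx0 : ¬ IsOfFinAddOrder x) (hy0 : ¬ IsOfFinAddOrder y)
    (h12 : ∀ x ∈ H₁, x ∈ H₂ → IsOfFinAddOrder x) (P : G) :
    ∃ l m n : ℤ, l ≠ 0 ∧ l • P = m • x + n • y := by
  have hnli : ¬ LinearIndependent ℤ ![P, x, y] := by
    intro hli
    have := hli.cardinal_le_rank
    rw [hG] at this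
    simp at this
    norm_cast at this
  rw [Fintype.not_linearIndependent_iff] at hnli
  obtain ⟨g, hg, i, hi⟩ := hnli
  simp [Fin.sum_univ_three] at hg
  have h0 : g 0 ≠ 0 := by
    intro h0
    rw [h0, zero_smul, zero_add] at hg
    have hx2 : g 1 • x ∈ H₂ := by
      rw [eq_neg_of_add_eq_zero_left hg]
      exact H₂.neg_mem (H₂.zsmul_mem hy _)
    have h1 : g 1 = 0 := by
      by_contra h1
      exact hx0 (smul_fin h1 (h12 _ (H₁.zsmul_mem hx _) hx2))
    rw [h1, zero_smul, zero_add] at hg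
    have h2 : g 2 = 0 := by
      by_contra h2
      exact hy0 (fin_iff.2 ⟨_, h2, hg⟩)
    fin_cases i
    · exact hi h0
    · exact hi h1
    · exact hi h2
  refine ⟨g 0, - g 1, - g 2, h0, ?_⟩
  rw [neg_smul, neg_smul]
  have : g 0 • P + (g 1 • x + g 2 • y) = 0 := by rw [← hg]; abel
  rw [eq_neg_of_add_eq_zero_left this]
  abel

end group

variable {W : WeierstrassCurve ℚ}

theorem three_lines (hW : W.Δ ≠ 0) (hG : Module.rank ℤ W.toAffine.Point = 2)
    (H : Fin 3 → AddSubgroup W.toAffine.Point) (hr : ∀ i, Module.rank ℤ (H i) = 1)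
    (hED : ∀ i, ED W (H i : Set W.toAffine.Point))
    (hint : ∀ i j, i ≠ j → ∀ x ∈ H i, x ∈ H j → IsOfFinAddOrder x)
    (P : W.toAffine.Point) (hP : ¬ IsOfFinAddOrder P) :
    ∃ K : AddSubgroup W.toAffine.Point, ED W (K : Set W.toAffine.Point) ∧
      Module.rank ℤ K = 1 ∧ ∃ n : ℤ, n ≠ 0 ∧ n • P ∈ K := by
  obtain ⟨x, hx, hx0⟩ := exists_inf_of_rank_one (hr 0)
  obtain ⟨y, hy, hy0⟩ := exists_inf_of_rank_one (hr 1)
  obtain ⟨z, hz, hz0⟩ := exists_inf_of_rank_one (hr 2)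
  rw [← inf_iff] at hx0 hy0 hz0
  have h01 := hint 0 1 (by decide)
  have h12 := hint 1 2 (by decide)
  obtain ⟨l, m, n, hl, h⟩ := combo hG hx hy hx0 hy0 h01 z
  have hzl : l • z ∈ H 2 := (H 2).zsmul_mem hz l
  have hzl0 : ¬ IsOfFinAddOrder (l • z) := fun h => hz0 (smul_fin hl h)
  have hm : m ≠ 0 := by
    rintro rfl
    rw [zero_zsmul, zero_add] at h
    refine hzl0 (h12 _ ?_ hzl)
    rw [h]; exact (H 1).zsmul_mem hy n
  have hn : n ≠ 0 := by
    rintro rfl
    rw [zero_zsmul, add_zero] at h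
    refine hzl0 (hint 0 2 (by decide) _ ?_ hzl)
    rw [h]; exact (H 0).zsmul_mem hx m
  have hA : m • x ∈ H 0 := (H 0).zsmul_mem hx m
  have hD : n • y ∈ H 1 := (H 1).zsmul_mem hy n
  have hA0 : ¬ IsOfFinAddOrder (m • x) := fun h => hx0 (smul_fin hm h)
  have hD0 : ¬ IsOfFinAddOrder (n • y) := fun h => hy0 (smul_fin hn h)
  have hE : m • x + n • y ∈ H 2 := by rw [← h]; exact hzl
  obtain ⟨k, a, b, hk, hkP⟩ := combo hG hA hD hA0 hD0 h01 P
  by_cases ha : a = 0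
  · refine ⟨H 1, hED 1, hr 1, k, hk, ?_⟩
    rw [hkP, ha, zero_zsmul, zero_add]
    exact (H 1).zsmul_mem hD b
  · refine ⟨KK (H 0) (H 1) (H 2) a b, KK_ED hW (hED 0) (hED 1) (hED 2) a b,
      KK_rank hA hD hE ha hA0 (hr 0) h01 h12, k, hk, ?_⟩
    rw [hkP]
    exact KK_mem hA hD hE a b

end Pool.Agent.EDL10
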