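import Pool.Agent.EDL10.DQ

set_option autoImplicit false

namespace Pool.Agent.EDL10

open MvPolynomial

/-- Polynomial functions. -/
def IsP {α : Type} (f : (α → ℚ) → ℚ) : Prop := ∃ p : MvPolynomial α ℚ, ∀ v, eval v p = f v

theorem IsP.var {α : Type} (a : α) : IsP (fun v : α → ℚ => v a) := ⟨X a, fun v => by simp⟩
theorem IsP.const {α : Type} (c : ℚ) : IsP (fun _ : α → ℚ => c) := ⟨C c, fun v => by simp⟩
theorem IsP.add {α : Type} {f g : (α → ℚ) → ℚ} (hf : IsP f) (hg : IsP g) :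
    IsP (fun v => f v + g v) := by
  obtain ⟨p, hp⟩ := hf; obtain ⟨q, hq⟩ := hg
  exact ⟨p + q, fun v => by rw [map_add, hp, hq]⟩
theorem IsP.mul {α : Type} {f g : (α → ℚ) → ℚ} (hf : IsP f) (hg : IsP g) :
    IsP (fun v => f v * g v) := by
  obtain ⟨p, hp⟩ := hf; obtain ⟨q, hq⟩ := hg
  exact ⟨p * q, fun v => by rw [map_mul, hp, hq]⟩
theorem IsP.sub {α : Type} {f g : (α → ℚ) → ℚ} (hf : IsP f) (hg : IsP g) :
    IsP (fun v => f v - g v) := by
  obtain ⟨p, hp⟩ := hf; obtain ⟨q, hq⟩ := hg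
  exact ⟨p - q, fun v => by rw [map_sub, hp, hq]⟩
theorem IsP.neg {α : Type} {f : (α → ℚ) → ℚ} (hf : IsP f) : IsP (fun v => - f v) := by
  obtain ⟨p, hp⟩ := hf
  exact ⟨-p, fun v => by rw [map_neg, hp]⟩
theorem IsP.pow {α : Type} {f : (α → ℚ) → ℚ} (hf : IsP f) (n : ℕ) : IsP (fun v => f v ^ n) := by
  obtain ⟨p, hp⟩ := hf
  exact ⟨p ^ n, fun v => by rw [map_pow, hp]⟩

theorem DQ.eq {α : Type} {f g : (α → ℚ) → ℚ} (hf : IsP f) (hg : IsP g) :
    DQ {v | f v = g v} := by
  obtain ⟨p, hp⟩ := hf; obtain ⟨q, hq⟩ := hg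
  have := DQ.zero (p - q)
  convert this using 1
  ext v
  simp [hp, hq, sub_eq_zero]

theorem DQ.and {α : Type} {p q : (α → ℚ) → Prop} (hp : DQ {v | p v}) (hq : DQ {v | q v}) :
    DQ {v | p v ∧ q v} := DQ.inter hp hq

theorem DQ.or {α : Type} {p q : (α → ℚ) → Prop} (hp : DQ {v | p v}) (hq : DQ {v | q v}) :
    DQ {v | p v ∨ q v} := DQ.union hp hq

theorem DQ.exq {α : Type} {p : (α → ℚ) → ℚ → Prop}
    (h : DQ {w : Option α → ℚ | p (fun a => w (some a)) (w none)}) :
    DQ {v | ∃ t, p v t} := DQ.ex1 h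

theorem DQ.false {α : Type} : DQ {_v : α → ℚ | False} := by
  have := DQ.zero (α := α) 1
  convert this using 1
  ext v; simp

theorem DQ.true {α : Type} : DQ {_v : α → ℚ | True} := by
  have := DQ.zero (α := α) 0
  convert this using 1
  ext v; simp

theorem DQ.all {α ι : Type} (F : Finset ι) {p : ι → (α → ℚ) → Prop} (h : ∀ i, DQ {v | p i v}) :
    DQ {v | ∀ i ∈ F, p i v} := by
  classical
  induction F using Finset.induction_on with
  | empty =>
    convert DQ.true (α := α) using 1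
    ext v; simp
  | insert a s ha ih =>
    have := DQ.and (h a) ih
    convert this using 1
    ext v; simp

variable (W : WeierstrassCurve ℚ)

/-- The code of a point: `(x, y, 0)` for an affine point, `(0, 0, 1)` for the point at infinity. -/
def code : W.toAffine.Point → Fin 3 → ℚ
  | .zero => ![0, 0, 1]
  | .some x y _ => ![x, y, 0]

theorem code_inj : Function.Injective (code W) := by
  intro P Q h
  rcases P with _ | ⟨x, y, hP⟩ <;> rcases Q with _ | ⟨x', y', hQ⟩
  · rfl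
  · have := congrFun h 2
    simp [code] at this
  · have := congrFun h 2
    simp [code] at this
  · have h0 := congrFun h 0
    have h1 := congrFun h 1
    simp [code] at h0 h1
    subst h0; subst h1; rfl

/-- Being a code, as a polynomial condition. -/
def Pt (w : Fin 3 → ℚ) : Prop :=
  (w 2 = 0 ∧ w 1 ^ 2 + W.a₁ * w 0 * w 1 + W.a₃ * w 1 =
    w 0 ^ 3 + W.a₂ * w 0 ^ 2 + W.a₄ * w 0 + W.a₆) ∨ (w 0 = 0 ∧ w 1 = 0 ∧ w 2 = 1)

theorem pt_iff (hW : W.Δ ≠ 0) (w : Fin 3 → ℚ) : Pt W w ↔ ∃ P, w = code W P := by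
  constructor
  · rintro (⟨h2, he⟩ | ⟨h0, h1, h2⟩)
    · have hns : W.toAffine.Nonsingular (w 0) (w 1) :=
        (WeierstrassCurve.Affine.equation_iff_nonsingular_of_Δ_ne_zero (W := W.toAffine) hW).1
          ((WeierstrassCurve.Affine.equation_iff ..).2 he)
      refine ⟨.some _ _ hns, ?_⟩
      ext i; fin_cases i <;> simp [code, h2]
    · refine ⟨.zero, ?_⟩
      ext i; fin_cases i <;> simp [code, h0, h1, h2]
  · rintro ⟨P, rfl⟩
    rcases P with _ | ⟨x, y, hP⟩
    · right; simp [code]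
    · left
      refine ⟨by simp [code], ?_⟩
      have := (WeierstrassCurve.Affine.equation_iff ..).1 hP.1
      simpa [code] using this

/-- The code of a tuple of points. -/
def codes {α : Type} (s : α → W.toAffine.Point) : α × Fin 3 → ℚ := fun p => code W (s p.1) p.2

theorem codes_inj {α : Type} : Function.Injective (codes (α := α) W) := by
  intro s t h
  funext a
  apply code_inj W
  funext i
  exact congrFun h (a, i)

/-- Diophantine sets of tuples of points. -/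
def DE {α : Type} (S : Set (α → W.toAffine.Point)) : Prop := DQ {v | ∃ s ∈ S, v = codes W s}

variable {W}

theorem DE.inter {α : Type} {S T : Set (α → W.toAffine.Point)} (hS : DE W S) (hT : DE W T) :
    DE W (S ∩ T) := by
  have := DQ.inter hS hT
  unfold DE
  convert this using 1
  ext v
  constructor
  · rintro ⟨s, ⟨h1, h2⟩, rfl⟩
    exact ⟨⟨s, h1, rfl⟩, ⟨s, h2, rfl⟩⟩
  · rintro ⟨⟨s, h1, rfl⟩, ⟨t, h2, h⟩⟩
    have := codes_inj W h
    subst this
    exact ⟨s, ⟨h1, h2⟩, rfl⟩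

theorem DE.union {α : Type} {S T : Set (α → W.toAffine.Point)} (hS : DE W S) (hT : DE W T) :
    DE W (S ∪ T) := by
  have := DQ.union hS hT
  unfold DE
  convert this using 1
  ext v
  constructor
  · rintro ⟨s, h1 | h1, rfl⟩
    · exact Or.inl ⟨s, h1, rfl⟩
    · exact Or.inr ⟨s, h1, rfl⟩
  · rintro (⟨s, h1, rfl⟩ | ⟨s, h1, rfl⟩)
    · exact ⟨s, Or.inl h1, rfl⟩
    · exact ⟨s, Or.inr h1, rfl⟩

theorem DE.and {α : Type} {p q : (α → W.toAffine.Point) → Prop} (hp : DE W {v | p v})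
    (hq : DE W {v | q v}) : DE W {v | p v ∧ q v} := DE.inter hp hq

theorem DE.or {α : Type} {p q : (α → W.toAffine.Point) → Prop} (hp : DE W {v | p v})
    (hq : DE W {v | q v}) : DE W {v | p v ∨ q v} := DE.union hp hq

theorem dq_pt {α : Type} (a b c : α) : DQ {v : α → ℚ | Pt W ![v a, v b, v c]} := by
  unfold Pt
  simp only [Matrix.cons_val_zero, Matrix.cons_val_one, Matrix.cons_val]
  refine DQ.or (DQ.and (DQ.eq ?_ ?_) (DQ.eq ?_ ?_)) (DQ.and (DQ.eq ?_ ?_)
    (DQ.and (DQ.eq ?_ ?_) (DQ.eq ?_ ?_)))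
  all_goals
    repeat' first
    | exact IsP.const _
    | exact IsP.var _
    | apply IsP.add
    | apply IsP.sub
    | apply IsP.mul
    | apply IsP.neg
    | apply IsP.pow

theorem DE.univ {α : Type} [Finite α] (hW : W.Δ ≠ 0) :
    DE W (Set.univ : Set (α → W.toAffine.Point)) := by
  have := Fintype.ofFinite α
  unfold DE
  have h := DQ.all (α := α × Fin 3) (Finset.univ : Finset α)
    (p := fun a v => Pt W ![v (a, 0), v (a, 1), v (a, 2)]) (fun a => dq_pt _ _ _)
  convert h using 1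
  ext v
  simp only [Finset.mem_univ, true_implies]
  constructor
  · rintro ⟨s, -, rfl⟩ a
    rw [pt_iff W hW]
    refine ⟨s a, ?_⟩
    ext i; fin_cases i <;> simp [codes]
  · intro hv
    choose s hs using fun a => (pt_iff W hW _).1 (hv a)
    refine ⟨s, trivial, ?_⟩
    ext ⟨a, i⟩
    have := congrFun (hs a) i
    simp only [codes]
    rw [← this]
    fin_cases i <;> rfl

theorem DE.comap {α β : Type} [Finite β] (hW : W.Δ ≠ 0) (f : α → β)
    {S : Set (α → W.toAffine.Point)} (hS : DE W S) :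
    DE W {s : β → W.toAffine.Point | s ∘ f ∈ S} := by
  have h1 := DQ.comap (Prod.map f (id : Fin 3 → Fin 3)) hS
  have h2 := DE.univ (α := β) hW
  have := DQ.inter h1 h2
  unfold DE
  convert this using 1
  ext v
  constructor
  · rintro ⟨s, hs, rfl⟩
    exact ⟨⟨s ∘ f, hs, rfl⟩, ⟨s, trivial, rfl⟩⟩
  · rintro ⟨⟨s, hs, h⟩, ⟨t, -, rfl⟩⟩
    refine ⟨t, ?_, rfl⟩
    have : t ∘ f = s := by
      apply codes_inj W
      rw [← h]
      rfl
    simpa [this] using hs

theorem DE.ex {α γ : Type} [Finite γ] {S : Set (α ⊕ γ → W.toAffine.Point)} (hS : DE W S) :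
    DE W {s : α → W.toAffine.Point | ∃ t : γ → W.toAffine.Point, Sum.elim s t ∈ S} := by
  have h1 := DQ.comap (β := (α × Fin 3) ⊕ (γ × Fin 3)) (fun p : (α ⊕ γ) × Fin 3 =>
    p.1.elim (fun a => Sum.inl (a, p.2)) (fun c => Sum.inr (c, p.2))) hS
  have h2 := DQ.ex h1
  unfold DE
  convert h2 using 1
  ext v
  constructor
  · rintro ⟨s, ⟨t, ht⟩, rfl⟩
    refine ⟨codes W t, Sum.elim s t, ht, ?_⟩
    ext ⟨a | c, i⟩ <;> simp [codes]
  · rintro ⟨w, s, hs, h⟩
    refine ⟨s ∘ Sum.inl, ⟨s ∘ Sum.inr, by simpa using hs⟩, ?_⟩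
    ext ⟨a, i⟩
    have := congrFun h (Sum.inl a, i)
    simpa [codes] using this

theorem DE.ex1 {α : Type} [Finite α] (hW : W.Δ ≠ 0)
    {p : (α → W.toAffine.Point) → W.toAffine.Point → Prop}
    (h : DE W {w : Option α → W.toAffine.Point | p (fun a => w (some a)) (w none)}) :
    DE W {s | ∃ t, p s t} := by
  have h1 := DE.comap (β := α ⊕ Unit) hW
    (fun o : Option α => o.elim (Sum.inr ()) Sum.inl) h
  have h2 := DE.ex h1
  convert h2 using 1
  ext v
  constructor
  · rintro ⟨t, ht⟩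
    exact ⟨fun _ => t, ht⟩
  · rintro ⟨w, hw⟩
    exact ⟨w (), hw⟩

end Pool.Agent.EDL10
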