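import Pool.Agent.EDL10.Add

set_option autoImplicit false

namespace Pool.Agent.EDL10

open MvPolynomial WeierstrassCurve.Affine

/-- `A ⊆ E(ℚ)` is existentially definable: its affine points are exactly the `(x, y)` for which
`P(x, y, z) = 0` for some rational `z` (the wording of the frozen statement). -/
def ED (W : WeierstrassCurve ℚ) (A : Set W.toAffine.Point) : Prop :=
  ∃ (m : ℕ) (P : MvPolynomial (Fin 2 ⊕ Fin m) ℚ), ∀ x y : ℚ,
    (∃ h : W.toAffine.Nonsingular x y, WeierstrassCurve.Affine.Point.some (h := h) ∈ A) ↔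
      ∃ z : Fin m → ℚ, MvPolynomial.eval (Sum.elim ![x, y] z) P = 0

variable {W : WeierstrassCurve ℚ}

theorem ed_iff' (A : Set W.toAffine.Point) : ED W A ↔
    DQ {u : Fin 2 → ℚ | ∃ h : W.toAffine.Nonsingular (u 0) (u 1),
      WeierstrassCurve.Affine.Point.some (h := h) ∈ A} := by
  have e : ∀ u : Fin 2 → ℚ, ![u 0, u 1] = u := by
    intro u; ext i; fin_cases i <;> rfl
  constructor
  · rintro ⟨m, P, h⟩
    refine ⟨m, P, fun u => ?_⟩
    have := h (u 0) (u 1)
    rw [e] at this
    exact this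
  · rintro ⟨m, P, h⟩
    exact ⟨m, P, fun x y => h ![x, y]⟩

theorem ED.toDE {A : Set W.toAffine.Point} (hA : ED W A) :
    DE W {s : Unit → W.toAffine.Point | s () ∈ A} := by
  rw [ed_iff'] at hA
  have h1 := DQ.comap (β := Unit × Fin 3) (fun i : Fin 2 => ((), i.castSucc)) hA
  have h2 : DQ {v : Unit × Fin 3 → ℚ | v ((), 2) = 0} :=
    DQ.eq (IsP.var _) (IsP.const _)
  have h3 : DQ {v : Unit × Fin 3 → ℚ | v ((), 0) = 0 ∧ (v ((), 1) = 0 ∧ v ((), 2) = 1)} :=
    DQ.and (DQ.eq (IsP.var _) (IsP.const _)) (DQ.and (DQ.eq (IsP.var _) (IsP.const _))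
      (DQ.eq (IsP.var _) (IsP.const _)))
  have h4 := DQ.inter h1 h2
  have haff : ∀ v : Unit × Fin 3 → ℚ, (∃ s : Unit → W.toAffine.Point, s () ∈ A ∧
      v = codes W s) ↔ ((v ∘ (fun i : Fin 2 => ((), i.castSucc)) ∈
        {u : Fin 2 → ℚ | ∃ h : W.toAffine.Nonsingular (u 0) (u 1),
          WeierstrassCurve.Affine.Point.some (h := h) ∈ A} ∧ v ((), 2) = 0) ∨
        ((0 : W.toAffine.Point) ∈ A ∧ (v ((), 0) = 0 ∧ (v ((), 1) = 0 ∧ v ((), 2) = 1)))) := by
    intro v
    constructor
    · rintro ⟨s, hs, rfl⟩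
      rcases hP : s () with _ | ⟨x, y, hn⟩
      · right
        rw [hP] at hs
        exact ⟨hs, by simp [codes, hP, code], by simp [codes, hP, code], by simp [codes, hP, code]⟩
      · left
        rw [hP] at hs
        refine ⟨?_, by simp [codes, hP, code]⟩
        have e0 : (codes W s ∘ fun i : Fin 2 => ((), i.castSucc)) 0 = x := by
          simp [codes, hP, code]
        have e1 : (codes W s ∘ fun i : Fin 2 => ((), i.castSucc)) 1 = y := by
          simp [codes, hP, code]
        change ∃ h : W.toAffine.Nonsingular ((codes W s ∘ fun i : Fin 2 => ((), i.castSucc)) 0)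
          ((codes W s ∘ fun i : Fin 2 => ((), i.castSucc)) 1), _
        rw [e0, e1]
        exact ⟨hn, hs⟩
    · rintro (⟨⟨h, hm⟩, hv⟩ | ⟨h0, h1, h2, h3⟩)
      · refine ⟨fun _ => _, hm, ?_⟩
        ext ⟨_, i⟩
        fin_cases i
        · rfl
        · rfl
        · exact hv
      · refine ⟨fun _ => 0, h0, ?_⟩
        ext ⟨_, i⟩
        fin_cases i
        · exact h1
        · exact h2
        · exact h3
  unfold DE
  by_cases h0 : (0 : W.toAffine.Point) ∈ A
  · have := DQ.union h4 h3
    convert this using 1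
    ext v
    have := haff v
    simp only [h0, true_and] at this
    exact this
  · convert h4 using 1
    ext v
    have := haff v
    simp only [h0, false_and, or_false] at this
    exact this

theorem ED.ofDE {A : Set W.toAffine.Point}
    (hA : DE W {s : Unit → W.toAffine.Point | s () ∈ A}) : ED W A := by
  rw [ed_iff']
  have h1 := DQ.comap (β := Option (Fin 2)) (fun p : Unit × Fin 3 =>
    (![some 0, some 1, none] : Fin 3 → Option (Fin 2)) p.2) hA
  have h2 : DQ {v : Option (Fin 2) → ℚ | v none = 0} := DQ.eq (IsP.var _) (IsP.const _)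
  have h3 := DQ.ex1 (DQ.inter h1 h2)
  convert h3 using 1
  ext u
  constructor
  · rintro ⟨h, hm⟩
    refine ⟨0, ⟨fun _ => _, hm, ?_⟩, rfl⟩
    ext ⟨_, i⟩
    fin_cases i <;> rfl
  · rintro ⟨t, ⟨s, hs, he⟩, ht⟩
    have ht' : t = 0 := ht
    subst ht'
    rcases hP : s () with _ | ⟨x, y, hn⟩
    · have := congrFun he ((), 2)
      simp [codes, hP, code] at this
    · have e0 := congrFun he ((), 0)
      have e1 := congrFun he ((), 1)
      simp [codes, hP, code] at e0 e1
      have hs' : s () ∈ A := hs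
      rw [hP] at hs'
      change ∃ h : W.toAffine.Nonsingular (u 0) (u 1), _
      rw [e0, e1]
      exact ⟨hn, hs'⟩

theorem DE.memv {α : Type} [Finite α] (hW : W.Δ ≠ 0) {A : Set W.toAffine.Point} (hA : ED W A)
    (i : α) : DE W {s : α → W.toAffine.Point | s i ∈ A} :=
  DE.comap hW (fun _ : Unit => i) hA.toDE

theorem DE.zerov {α : Type} [Finite α] (hW : W.Δ ≠ 0) (i : α) :
    DE W {s : α → W.toAffine.Point | s i = 0} := by
  have := DE.addv hW i i i
  convert this using 1
  ext s
  simp

theorem DE.nsmulv (hW : W.Δ ≠ 0) (n : ℕ) : ∀ {α : Type} [Finite α] (i j : α),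
    DE W {s : α → W.toAffine.Point | n • s i = s j} := by
  induction n with
  | zero =>
    intro α _ i j
    convert DE.zerov hW j using 1
    ext s
    simp [eq_comm]
  | succ n ih =>
    intro α _ i j
    have := DE.ex1 (α := α) hW (p := fun s t => n • s i = t ∧ t + s i = s j)
      (DE.and (ih (some i) none) (DE.addv hW none (some i) (some j)))
    convert this using 1
    ext s
    simp [succ_nsmul]

theorem DE.zsmulv (hW : W.Δ ≠ 0) (n : ℤ) {α : Type} [Finite α] (i j : α) :
    DE W {s : α → W.toAffine.Point | n • s i = s j} := by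
  obtain ⟨k, rfl | rfl⟩ := n.eq_nat_or_neg
  · simpa using DE.nsmulv hW k i j
  · have := DE.ex1 (α := α) hW (p := fun s t => k • s i = t ∧ ∃ u, t + s j = u ∧ u = 0)
      (DE.and (DE.nsmulv hW k (some i) none) (DE.ex1 hW (DE.and
        (DE.addv hW (some none) (some (some j)) none) (DE.zerov hW none))))
    convert this using 1
    ext s
    constructor
    · intro h
      have h' : (-(k : ℤ)) • s i = s j := h
      exact ⟨k • s i, rfl, 0, by rw [← h']; simp, rfl⟩
    · rintro ⟨t, ht, u, hu, hu0⟩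
      change (-(k : ℤ)) • s i = s j
      rw [neg_smul, natCast_zsmul, ht]
      rw [hu0] at hu
      exact neg_eq_of_add_eq_zero_right hu

theorem ED.ofp (p : W.toAffine.Point → Prop)
    (h : DE W {s : Unit → W.toAffine.Point | p (s ())}) : ED W {x | p x} := ED.ofDE h

theorem ED.union {A B : Set W.toAffine.Point} (hA : ED W A) (hB : ED W B) : ED W (A ∪ B) :=
  ED.ofDE (DE.union hA.toDE hB.toDE)

theorem ED.add (hW : W.Δ ≠ 0) {A B : Set W.toAffine.Point} (hA : ED W A) (hB : ED W B) :
    ED W {z | ∃ x, x ∈ A ∧ ∃ y, y ∈ B ∧ x + y = z} :=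
  ED.ofp _ (DE.ex1 hW (DE.and (DE.memv hW hA none) (DE.ex1 hW (DE.and (DE.memv hW hB none)
    (DE.addv hW (some none) none (some (some ())))))))

theorem ED.zsmul (hW : W.Δ ≠ 0) (n : ℤ) {A : Set W.toAffine.Point} (hA : ED W A) :
    ED W {z | ∃ x, x ∈ A ∧ n • x = z} :=
  ED.ofp _ (DE.ex1 hW (DE.and (DE.memv hW hA none) (DE.zsmulv hW n none (some ()))))

theorem ED.singleton (P : W.toAffine.Point) : ED W {P} := by
  apply ED.ofDE
  unfold DE
  have : DQ {v : Unit × Fin 3 → ℚ | v ((), 0) = code W P 0 ∧ (v ((), 1) = code W P 1 ∧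
      v ((), 2) = code W P 2)} :=
    DQ.and (DQ.eq (IsP.var _) (IsP.const _)) (DQ.and (DQ.eq (IsP.var _) (IsP.const _))
      (DQ.eq (IsP.var _) (IsP.const _)))
  convert this using 1
  ext v
  constructor
  · rintro ⟨s, hs, rfl⟩
    have hs' : s () = P := hs
    subst hs'
    exact ⟨rfl, rfl, rfl⟩
  · rintro ⟨h0, h1, h2⟩
    refine ⟨fun _ => P, rfl, ?_⟩
    ext ⟨_, i⟩
    fin_cases i
    · exact h0
    · exact h1
    · exact h2

theorem ED.empty : ED W (∅ : Set W.toAffine.Point) := by
  rw [ed_iff']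
  convert DQ.false (α := Fin 2) using 1
  ext u
  simp

theorem ED.finite {A : Set W.toAffine.Point} (hA : A.Finite) : ED W A := by
  induction A, hA using Set.Finite.induction_on with
  | empty => exact ED.empty
  | insert _ _ ih => exact ED.union (ED.singleton _) ih

end Pool.Agent.EDL10
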